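import Pool.Agent.Work.MP_355410_ag.Transfer

namespace Pool.Agent.Results.MP_355410_ag.Criterion

open Pool.Agent.Work.MP_355410_ag

/-- A set of `a` points on each of `b` pairwise skew lines projects from a general point to a
complete intersection of type `(a, b)` if and only if it satisfies the coplanarity condition. -/
theorem result (a b : ℕ) (ha : 1 ≤ a) (hb : 2 ≤ b) (L : Fin b → Submodule ℂ (Fin 4 → ℂ))
    (Z : Set (PS 3)) (h : OnSkewLines a b L Z) : IsGeprociType a b Z ↔ Coplanarity L Z :=
  ⟨coplanarity_of_geproci ha hb h, geproci_of_coplanarity ha hb h⟩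

end Pool.Agent.Results.MP_355410_ag.Criterion
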