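import Pool.Agent.Work.MP_355410_ag.Transfer

namespace Pool.Agent.Results.MP_355410_ag.HalfGrids

open Pool.Agent.Work.MP_355410_ag

/-- Q1 for half grids: every set of points of `ℙ³` which is combinatorially equivalent to a
half grid is a half grid, in particular it is nondegenerate and geproci. -/
theorem result (Z Z' : Set (PS 3)) (h : CombEquiv Z Z') (hZ : IsHalfGrid Z) :
    IsHalfGrid Z' ∧ Nondegenerate Z' ∧ IsGeproci Z' := by
  obtain ⟨f, hf, hr⟩ := h
  obtain ⟨a, b, ha, hb, hg, L, hL⟩ := hZ
  have hL' := transfer ha hL hf hr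
  have hc := coplanarity_of_geproci (by omega) hb hL hg
  have hc' := transfer_coplanarity ha hL hf hr hc
  have hg' := geproci_of_coplanarity (by omega) hb hL' hc'
  exact ⟨⟨a, b, ha, hb, hg', _, hL'⟩, nondegenerate_of_lines hb ha hL', geproci_of_type hg'⟩

end Pool.Agent.Results.MP_355410_ag.HalfGrids
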